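import Pool.Agent.H95.GY.Targets

/-!
# MP_c39b0e_gt: module AVG
-/

set_option autoImplicit false

open Filter Topology MeasureTheory Set
open scoped Pointwise

universe u v

namespace Pool.Agent.H3.GY

open Pool.Agent.H95.GY

theorem cont_apply {K : Type u} [TopologicalSpace K] {n : ℕ}
    (ρ : K → (Fin n → ℝ) →ₗ[ℝ] (Fin n → ℝ)) (h : ∀ v, Continuous fun k => ρ k v)
    (g : K → Fin n → ℝ) (hg : Continuous g) : Continuous fun k => ρ k (g k) := by
  have h1 : (fun k => ρ k (g k)) =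
      fun k => ∑ i : Fin n, g k i • ρ k (Pi.single i (1 : ℝ)) := by
    funext k
    conv_lhs => rw [pi_eq_sum_univ' (g k)]
    rw [map_sum]
    apply Finset.sum_congr rfl
    intro i _
    rw [map_smul]
  rw [h1]
  refine continuous_finsetSum _ fun i _ => ?_
  exact ((continuous_apply i).comp hg).smul (h _)

theorem pf_AVG : T_AVG.{u} := by
  intro K _ _ _ _ _ m n ρ ρ' hρm hρ1 hρc hρ'm hρ'1 hρ'c p hp heq
  obtain ⟨s0, hs0⟩ := p.exists_rightInverse_of_surjective (LinearMap.range_eq_top.2 hp)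
  have hs0' : ∀ v, p (s0 v) = v := fun v => by
    have h1 := LinearMap.congr_fun hs0 v
    simpa using h1
  let _ : MeasurableSpace K := borel K
  have : BorelSpace K := ⟨rfl⟩
  let μ : Measure K := Measure.haarMeasure ⊤
  have hμ : μ univ = 1 := by
    have h1 := Measure.haarMeasure_self (K₀ := (⊤ : TopologicalSpace.PositiveCompacts K))
    simpa using h1
  have : IsProbabilityMeasure μ := ⟨hμ⟩
  have hs0c : Continuous s0 := LinearMap.continuous_of_finiteDimensional s0
  have hcont : ∀ v, Continuous fun k => ρ' k (s0 (ρ k⁻¹ v)) := by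
    intro v
    apply cont_apply ρ' hρ'c
    exact hs0c.comp ((hρc v).comp continuous_inv)
  have hint : ∀ v, Integrable (fun k => ρ' k (s0 (ρ k⁻¹ v))) μ := fun v =>
    (hcont v).integrable_of_hasCompactSupport (HasCompactSupport.of_compactSpace _)
  let s : (Fin m → ℝ) →ₗ[ℝ] (Fin n → ℝ) :=
    { toFun := fun v => ∫ k, ρ' k (s0 (ρ k⁻¹ v)) ∂μ
      map_add' := by
        intro v w
        rw [← integral_add (hint v) (hint w)]
        simp only [map_add]
      map_smul' := by
        intro c v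
        rw [RingHom.id_apply, ← integral_smul]
        simp only [map_smul] }
  have hs : ∀ v, s v = ∫ k, ρ' k (s0 (ρ k⁻¹ v)) ∂μ := fun v => rfl
  refine ⟨s, ?_, ?_⟩
  · intro v
    have h1 := (LinearMap.toContinuousLinearMap p).integral_comp_comm (hint v)
    rw [hs]
    have h2 : p (∫ k, ρ' k (s0 (ρ k⁻¹ v)) ∂μ) = ∫ k, p (ρ' k (s0 (ρ k⁻¹ v))) ∂μ := h1.symm
    rw [h2]
    have h3 : (fun k => p (ρ' k (s0 (ρ k⁻¹ v)))) = fun _ : K => v := by
      funext k
      rw [heq, hs0', ← hρm, mul_inv_cancel, hρ1]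
    rw [h3]
    simp
  · intro l v
    have hl : Continuous (ρ' l) := LinearMap.continuous_of_finiteDimensional _
    have h1 := (LinearMap.toContinuousLinearMap (ρ' l)).integral_comp_comm (hint v)
    rw [hs, hs]
    have h2 : ρ' l (∫ k, ρ' k (s0 (ρ k⁻¹ v)) ∂μ) = ∫ k, ρ' l (ρ' k (s0 (ρ k⁻¹ v))) ∂μ := h1.symm
    rw [h2, ← integral_mul_left_eq_self (fun k => ρ' k (s0 (ρ k⁻¹ (ρ l v)))) l]
    congr 1
    funext k
    rw [hρ'm, ← hρm, mul_inv_rev, inv_mul_cancel_right]

end Pool.Agent.H3.GY
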