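import Pool.Agent.H95.GY.Targets

/-!
# MP_c39b0e_gt: module FUN
-/

set_option autoImplicit false

open Filter Topology MeasureTheory Set
open scoped Pointwise

universe u v

namespace Pool.Agent.H3.GY

open Pool.Agent.H95.GY

section

variable {Q : Type u} [Group Q] [TopologicalSpace Q] {n : ℕ} {e : (Fin n → ℝ) → ℝ → Q}

theorem chart_zero (h : Chart Q n e) (t : ℝ) : e 0 t = 1 := by
  have h1 := h.smul 0 0 t
  rw [zero_smul, zero_mul, (h.ops 0).zero] at h1
  exact h1

end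

theorem pf_FUN : T_FUN.{u} := by
  intro Q Q' _ _ _ _ _ _ _ _ n n' e e' f he he' hf
  have hex : ∀ v, ∃ w, e' w = fun t => f (e v t) := fun v =>
    he'.surj _ ((he.ops v).map f hf)
  choose q hq using hex
  have hq' : ∀ v t, e' (q v) t = f (e v t) := fun v t => by rw [hq v]
  have hadd : ∀ v w, q (v + w) = q v + q w := by
    intro v w
    apply he'.inj
    funext t
    have h1 := he'.add (q v) (q w) t
    have h2 := (hf.tendsto (e (v + w) t)).comp (he.add v w t)
    have h3 : (fun m : ℕ => (e' (q v) (t / m) * e' (q w) (t / m)) ^ m) =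
        f ∘ fun m : ℕ => (e v (t / m) * e w (t / m)) ^ m := by
      funext m
      simp only [Function.comp_apply, map_pow, map_mul, hq']
    rw [h3] at h1
    rw [hq']
    exact tendsto_nhds_unique h2 h1
  have hsmul : ∀ (c : ℝ) v, q (c • v) = c • q v := by
    intro c v
    apply he'.inj
    funext t
    rw [hq', he.smul, he'.smul, hq']
  refine ⟨{ toFun := q, map_add' := hadd, map_smul' := hsmul }, hq', ?_⟩
  intro hsurj hopen
  set p : (Fin n → ℝ) →ₗ[ℝ] (Fin n' → ℝ) := { toFun := q, map_add' := hadd, map_smul' := hsmul }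
    with hp
  have hpq : ∀ v, p v = q v := fun v => rfl
  obtain ⟨δ, hδ, hinj⟩ := he'.loc
  have hpc : Continuous p := LinearMap.continuous_of_finiteDimensional p
  have h1 : ∃ ε > 0, ∀ v : Fin n → ℝ, v ∈ Metric.closedBall 0 ε → p v ∈ Metric.closedBall 0 δ := by
    have h2 : p ⁻¹' Metric.closedBall 0 δ ∈ 𝓝 (0 : Fin n → ℝ) := by
      apply hpc.continuousAt.preimage_mem_nhds
      rw [map_zero]
      exact Metric.closedBall_mem_nhds 0 hδ
    obtain ⟨ε, hε, h3⟩ := Metric.nhds_basis_closedBall.mem_iff.1 h2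
    exact ⟨ε, hε, fun v hv => h3 hv⟩
  obtain ⟨ε, hε, hεδ⟩ := h1
  have h2 : f '' ((fun v => e v 1) '' Metric.closedBall 0 ε) ∈ 𝓝 (1 : Q') := by
    have h3 := hopen.image_mem_nhds (he.nhd ε hε)
    rwa [map_one] at h3
  intro w
  have h3 : Tendsto (fun s : ℝ => e' (s • w) 1) (𝓝 0) (𝓝 1) := by
    have h4 : Continuous fun s : ℝ => e' (s • w) 1 :=
      he'.cont.comp (continuous_id.smul continuous_const)
    have h5 := h4.tendsto 0
    simpa [chart_zero he'] using h5
  have h4 : Tendsto (fun s : ℝ => s • w) (𝓝 0) (𝓝 0) := by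
    have h5 : Continuous fun s : ℝ => s • w := continuous_id.smul continuous_const
    simpa using h5.tendsto 0
  have h5 : ∀ᶠ s : ℝ in 𝓝 0, e' (s • w) 1 ∈ f '' ((fun v => e v 1) '' Metric.closedBall 0 ε) ∧
      s • w ∈ Metric.closedBall (0 : Fin n' → ℝ) δ :=
    (h3.eventually h2).and (h4.eventually (Metric.closedBall_mem_nhds 0 hδ))
  have h7 : ∀ᶠ s : ℝ in 𝓝[>] 0, (e' (s • w) 1 ∈ f '' ((fun v => e v 1) '' Metric.closedBall 0 ε) ∧
      s • w ∈ Metric.closedBall (0 : Fin n' → ℝ) δ) ∧ s ∈ Ioi (0 : ℝ) :=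
    (h5.filter_mono nhdsWithin_le_nhds).and self_mem_nhdsWithin
  obtain ⟨s, ⟨⟨y, ⟨v, hv, rfl⟩, hy⟩, hs⟩, hs0⟩ := h7.exists
  have hs0' : s ≠ 0 := ne_of_gt hs0
  have h6 : p v = s • w := by
    apply hinj (hεδ v hv) hs
    simp only
    rw [hpq, hq', ← hy]
  refine ⟨s⁻¹ • v, ?_⟩
  rw [map_smul, h6, smul_smul, inv_mul_cancel₀ hs0', one_smul]

end Pool.Agent.H3.GY
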